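import Pool.Agent.Lib.RJK.Star

/-!
# Sets spanning at most one edge in triangle-free graphs: the glued graph (helper94)
-/

set_option autoImplicit false

namespace Pool.Agent.RJK

section glue

variable {V1 V2 : Type*} {m : ℕ}

/-- The adjacency of the glued graph. -/
def gadj (H1 : SimpleGraph V1) (H2 : SimpleGraph V2) (v : Fin m → V1)
    (R : Fin m → Bool → V2 → Prop) : V1 ⊕ V2 ⊕ Fin m → V1 ⊕ V2 ⊕ Fin m → Prop
  | Sum.inl a, Sum.inl b => H1.Adj a b
  | Sum.inl a, Sum.inr (Sum.inl x) => ∃ i, a = v i ∧ R i true x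
  | Sum.inl a, Sum.inr (Sum.inr i) => H1.Adj (v i) a
  | Sum.inr (Sum.inl x), Sum.inl a => ∃ i, a = v i ∧ R i true x
  | Sum.inr (Sum.inl x), Sum.inr (Sum.inl y) => H2.Adj x y
  | Sum.inr (Sum.inl x), Sum.inr (Sum.inr i) => R i false x
  | Sum.inr (Sum.inr i), Sum.inl a => H1.Adj (v i) a
  | Sum.inr (Sum.inr i), Sum.inr (Sum.inl x) => R i false x
  | Sum.inr (Sum.inr _), Sum.inr (Sum.inr _) => False

/-- The glued graph. -/
def glue (H1 : SimpleGraph V1) (H2 : SimpleGraph V2) (v : Fin m → V1)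
    (R : Fin m → Bool → V2 → Prop) : SimpleGraph (V1 ⊕ V2 ⊕ Fin m) where
  Adj := gadj H1 H2 v R
  symm := by
    constructor
    rintro (a | x | i) (b | y | j) h
    · exact SimpleGraph.Adj.symm (G := H1) h
    · exact h
    · exact h
    · exact h
    · exact SimpleGraph.Adj.symm (G := H2) h
    · exact h
    · exact h
    · exact h
    · exact h
  loopless := by
    constructor
    rintro (a | x | i) h
    · exact H1.loopless.irrefl a h
    · exact H2.loopless.irrefl x h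
    · exact h

theorem glue_tf {H1 : SimpleGraph V1} {H2 : SimpleGraph V2} {v : Fin m → V1}
    {R : Fin m → Bool → V2 → Prop} (h1 : TF H1) (h2 : TF H2)
    (hv : ∀ i j, ¬ H1.Adj (v i) (v j)) (hvi : Function.Injective v)
    (hR : ∀ i b x y, R i b x → R i b y → ¬ H2.Adj x y) : TF (glue H1 H2 v R) := by
  rintro (a | x | i) (b | y | j) (c | z | k) hab hbc hac
  · exact h1 a b c hab hbc hac
  · obtain ⟨i, rfl, -⟩ := hac
    obtain ⟨j, rfl, -⟩ := hbc
    exact hv i j hab
  · exact h1 (v k) a b hac hab hbc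
  · obtain ⟨i, rfl, -⟩ := hab
    obtain ⟨j, rfl, -⟩ := hbc
    exact hv i j hac
  · obtain ⟨i, rfl, hi⟩ := hab
    obtain ⟨j, hj, hj'⟩ := hac
    obtain rfl := hvi hj
    exact hR i true y z hi hj' hbc
  · obtain ⟨i, rfl, -⟩ := hab
    exact hv k i hac
  · exact h1 (v j) a c hab hac hbc
  · obtain ⟨i, rfl, -⟩ := hac
    exact hv j i hab
  · exact hbc
  · obtain ⟨i, rfl, -⟩ := hab
    obtain ⟨j, rfl, -⟩ := hac
    exact hv i j hbc
  · obtain ⟨i, rfl, hi⟩ := hab
    obtain ⟨j, hj, hj'⟩ := hbc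
    obtain rfl := hvi hj
    exact hR i true x z hi hj' hac
  · obtain ⟨i, rfl, -⟩ := hab
    exact hv k i hbc
  · obtain ⟨i, rfl, hi⟩ := hac
    obtain ⟨j, hj, hj'⟩ := hbc
    obtain rfl := hvi hj
    exact hR i true x y hi hj' hab
  · exact h2 x y z hab hbc hac
  · exact hR k false x y hac hbc hab
  · obtain ⟨i, rfl, -⟩ := hac
    exact hv j i hbc
  · exact hR j false x z hab hbc hac
  · exact hbc
  · exact h1 (v i) b c hab hbc hac
  · obtain ⟨j, rfl, -⟩ := hbc
    exact hv i j hab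
  · exact hac
  · obtain ⟨j, rfl, -⟩ := hbc
    exact hv i j hac
  · exact hR i false y z hab hac hbc
  · exact hac
  · exact hab
  · exact hab
  · exact hab

theorem glue_sparse [Fintype V1] [Fintype V2] [DecidableEq V1] [DecidableEq V2]
    {H1 : SimpleGraph V1} {H2 : SimpleGraph V2} {v : Fin m → V1}
    {R : Fin m → Bool → V2 → Prop} {a1 a2 : ℕ}
    (h1 : ∀ T : Finset V1, Sparse H1 T → T.card ≤ a1)
    (hv : ∀ i j, ¬ H1.Adj (v i) (v j)) (hvi : Function.Injective v)
    (hR : ∀ (T : Finset V2) (C : Finset (Fin m)), Inc H2 R T C → T.card + C.card ≤ a2)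
    (T : Finset (V1 ⊕ V2 ⊕ Fin m)) (hT : Sparse (glue H1 H2 v R) T) : T.card ≤ a1 + a2 := by
  classical
  let T1 : Finset V1 := Finset.univ.filter fun a => Sum.inl a ∈ T
  let T2 : Finset V2 := Finset.univ.filter fun x => Sum.inr (Sum.inl x) ∈ T
  let D : Finset (Fin m) := Finset.univ.filter fun i => Sum.inr (Sum.inr i) ∈ T
  have hT1 : ∀ a, a ∈ T1 ↔ (Sum.inl a : V1 ⊕ V2 ⊕ Fin m) ∈ T := by simp [T1]
  have hT2 : ∀ x, x ∈ T2 ↔ (Sum.inr (Sum.inl x) : V1 ⊕ V2 ⊕ Fin m) ∈ T := by simp [T2]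
  have hD : ∀ i, i ∈ D ↔ (Sum.inr (Sum.inr i) : V1 ⊕ V2 ⊕ Fin m) ∈ T := by simp [D]
  have hcard : T.card = T1.card + (T2.card + D.card) := by
    have e1 : T = T1.disjSum (T2.disjSum D) := by
      ext (a | x | i)
      · rw [Finset.inl_mem_disjSum, hT1]
      · rw [Finset.inr_mem_disjSum, Finset.inl_mem_disjSum, hT2]
      · rw [Finset.inr_mem_disjSum, Finset.inr_mem_disjSum, hD]
    rw [e1, Finset.card_disjSum, Finset.card_disjSum]
  let B : Finset (Fin m) := D.filter fun i => v i ∉ T1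
  let C : Finset (Fin m) := D.filter fun i => v i ∈ T1
  have hBC : C.card + B.card = D.card := Finset.card_filter_add_card_filter_not _
  -- the part on `V1`
  have hB : T1.card + B.card ≤ a1 := by
    have e1 : (T1 ∪ B.image v).card = T1.card + B.card := by
      rw [Finset.card_union_of_disjoint, Finset.card_image_of_injective _ hvi]
      rw [Finset.disjoint_left]
      intro x hx hx'
      obtain ⟨i, hi, rfl⟩ := Finset.mem_image.1 hx'
      exact (Finset.mem_filter.1 hi).2 hx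
    rw [← e1]
    apply h1
    have hlift : ∀ a ∈ T1 ∪ B.image v, ∃ w ∈ T, (w = Sum.inl a ∧ a ∈ T1) ∨
        ∃ i ∈ B, a = v i ∧ w = Sum.inr (Sum.inr i) := by
      intro a ha
      rcases Finset.mem_union.1 ha with ha | ha
      · exact ⟨Sum.inl a, (hT1 a).1 ha, Or.inl ⟨rfl, ha⟩⟩
      · obtain ⟨i, hi, rfl⟩ := Finset.mem_image.1 ha
        exact ⟨Sum.inr (Sum.inr i), (hD i).1 (Finset.mem_filter.1 hi).1,
          Or.inr ⟨i, hi, rfl, rfl⟩⟩
    let back : V1 ⊕ V2 ⊕ Fin m → Option V1 := fun w => match w with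
      | Sum.inl a => some a
      | Sum.inr (Sum.inl _) => none
      | Sum.inr (Sum.inr i) => some (v i)
    have hback : ∀ a w, ((w = Sum.inl a ∧ a ∈ T1) ∨
        ∃ i ∈ B, a = v i ∧ w = Sum.inr (Sum.inr i)) → back w = some a := by
      rintro a w (⟨rfl, -⟩ | ⟨i, -, rfl, rfl⟩) <;> rfl
    have hadj : ∀ a b w w', ((w = Sum.inl a ∧ a ∈ T1) ∨
        ∃ i ∈ B, a = v i ∧ w = Sum.inr (Sum.inr i)) → ((w' = Sum.inl b ∧ b ∈ T1) ∨
        ∃ i ∈ B, b = v i ∧ w' = Sum.inr (Sum.inr i)) → H1.Adj a b →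
        (glue H1 H2 v R).Adj w w' := by
      rintro a b w w' (⟨rfl, -⟩ | ⟨i, -, rfl, rfl⟩) (⟨rfl, -⟩ | ⟨j, -, rfl, rfl⟩) hab
      · exact hab
      · exact hab.symm
      · exact hab
      · exact absurd hab (hv i j)
    intro a ha b hb c hc d hd hab hcd
    obtain ⟨wa, hwa, pa⟩ := hlift a ha
    obtain ⟨wb, hwb, pb⟩ := hlift b hb
    obtain ⟨wc, hwc, pc⟩ := hlift c hc
    obtain ⟨wd, hwd, pd⟩ := hlift d hd
    have h3 := hT wa hwa wb hwb wc hwc wd hwd (hadj a b wa wb pa pb hab)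
      (hadj c d wc wd pc pd hcd)
    have h4 := congrArg (Sym2.map back) h3
    simp only [Sym2.map_mk, hback a wa pa, hback b wb pb, hback c wc pc,
      hback d wd pd] at h4
    have h5 : Function.Injective (Sym2.map (some : V1 → Option V1)) :=
      Sym2.map.injective (Option.some_injective _)
    exact h5 (by simpa using h4)
  -- the part on `V2`
  have hC : T2.card + C.card ≤ a2 := by
    apply hR
    have hedge : ∀ i ∈ C, ∀ b : Bool, ∀ x ∈ T2, R i b x → ∃ w ∈ T,
        (glue H1 H2 v R).Adj w (Sum.inr (Sum.inl x)) ∧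
        w = if b then Sum.inl (v i) else Sum.inr (Sum.inr i) := by
      intro i hi b x _ hb
      have hi' := Finset.mem_filter.1 hi
      cases b
      · exact ⟨Sum.inr (Sum.inr i), (hD i).1 hi'.1, hb, by simp⟩
      · exact ⟨Sum.inl (v i), (hT1 _).1 hi'.2, ⟨i, rfl, hb⟩, by simp⟩
    refine ⟨?_, ?_, ?_⟩
    · intro a ha b hb c hc d hd hab hcd
      have h3 := hT _ ((hT2 a).1 ha) _ ((hT2 b).1 hb) _ ((hT2 c).1 hc) _ ((hT2 d).1 hd) hab hcd
      have h4 : Function.Injective (fun x : V2 => (Sum.inr (Sum.inl x) : V1 ⊕ V2 ⊕ Fin m)) :=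
        fun x y h => Sum.inl_injective (Sum.inr_injective h)
      exact Sym2.map.injective h4 h3
    · intro i hi b x hx hb i' hi' b' x' hx' hb'
      obtain ⟨w, hw, hwa, hwe⟩ := hedge i hi b x hx hb
      obtain ⟨w', hw', hwa', hwe'⟩ := hedge i' hi' b' x' hx' hb'
      have h3 := hT w hw _ ((hT2 x).1 hx) w' hw' _ ((hT2 x').1 hx') hwa hwa'
      rw [Sym2.eq_iff] at h3
      have hne : ∀ (b : Bool) (i : Fin m) (y : V2), (if b then (Sum.inl (v i) :
          V1 ⊕ V2 ⊕ Fin m) else Sum.inr (Sum.inr i)) ≠ Sum.inr (Sum.inl y) := by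
        intro b i y
        cases b <;> simp
      rcases h3 with ⟨h4, h5⟩ | ⟨h4, h5⟩
      · have h6 : x = x' := Sum.inl_injective (Sum.inr_injective h5)
        rw [hwe, hwe'] at h4
        cases b <;> cases b'
        · simp only [Bool.false_eq_true, if_false] at h4
          exact ⟨Sum.inr_injective (Sum.inr_injective h4), rfl, h6⟩
        · simp at h4
        · simp at h4
        · simp only [if_true] at h4
          exact ⟨hvi (Sum.inl_injective h4), rfl, h6⟩
      · rw [hwe] at h4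
        exact absurd h4 (hne b i x')
    · intro i hi b x hx hb
      obtain ⟨w, hw, hwa, hwe⟩ := hedge i hi b x hx hb
      intro p hp q hq hpq
      have h3 := hT w hw _ ((hT2 x).1 hx) _ ((hT2 p).1 hp) _ ((hT2 q).1 hq) hwa hpq
      rw [Sym2.eq_iff, hwe] at h3
      rcases h3 with ⟨h4, -⟩ | ⟨h4, -⟩ <;> cases b <;> simp at h4
  omega

end glue

end Pool.Agent.RJK
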