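import Pool.Agent.Lib.RJK.Glue

/-!
# The Ramsey numbers `R(K_3, K_k)` and `R(K_3, K_k - e)` (helper94)
-/

set_option autoImplicit false

namespace Pool.Agent.RJK

/-- `R(K_3, K_k - e)`, as in the frozen statement. -/
noncomputable def RJ (k : ℕ) : ℕ :=
  sInf {n : ℕ | ∀ G : SimpleGraph (Fin n), ¬ G.CliqueFree 3 ∨
    ∃ f : Fin k ↪ Fin n, ∀ i j : Fin k, i ≠ j → i.val + j.val ≠ 1 → Gᶜ.Adj (f i) (f j)}

/-- `R(K_3, K_k)`, as in the frozen statement. -/
noncomputable def RK (k : ℕ) : ℕ :=
  sInf {n : ℕ | ∀ G : SimpleGraph (Fin n), ¬ G.CliqueFree 3 ∨ ¬ Gᶜ.CliqueFree k}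

section basic

variable {V : Type*}

theorem tf_iff (G : SimpleGraph V) : G.CliqueFree 3 ↔ TF G := by
  classical
  constructor
  · intro h a b c hab hbc hac
    exact h {a, b, c} (SimpleGraph.is3Clique_triple_iff.2 ⟨hab, hac, hbc⟩)
  · intro h s hs
    obtain ⟨a, b, c, hab, hac, hbc, -⟩ := SimpleGraph.is3Clique_iff.1 hs
    exact h a b c hab hbc hac

theorem indep_iff (G : SimpleGraph V) (k : ℕ) :
    ¬ Gᶜ.CliqueFree k ↔ ∃ T : Finset V, T.card = k ∧ Indep G T := by
  classical
  unfold SimpleGraph.CliqueFree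
  push Not
  constructor
  · rintro ⟨T, hT⟩
    refine ⟨T, hT.card_eq, fun a ha b hb hab => ?_⟩
    have h1 := hT.isClique ha hb hab.ne
    rw [SimpleGraph.compl_adj] at h1
    exact h1.2 hab
  · rintro ⟨T, hT, hI⟩
    refine ⟨T, ⟨fun a ha b hb hab => ?_, hT⟩⟩
    rw [SimpleGraph.compl_adj]
    exact ⟨hab, hI a ha b hb⟩

theorem sparse_iff (G : SimpleGraph V) {k : ℕ} (hk : 2 ≤ k) :
    (∃ f : Fin k ↪ V, ∀ i j : Fin k, i ≠ j → i.val + j.val ≠ 1 → Gᶜ.Adj (f i) (f j)) ↔
      ∃ T : Finset V, T.card = k ∧ Sparse G T := by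
  classical
  constructor
  · rintro ⟨f, hf⟩
    refine ⟨Finset.univ.map f, by simp, ?_⟩
    have key : ∀ i j : Fin k, G.Adj (f i) (f j) →
        s(f i, f j) = s(f ⟨0, by omega⟩, f ⟨1, by omega⟩) := by
      intro i j hij
      have h1 : i ≠ j := fun h => hij.ne (by rw [h])
      have h2 : i.val + j.val = 1 := by
        by_contra h2
        have h3 := hf i j h1 h2
        rw [SimpleGraph.compl_adj] at h3
        exact h3.2 hij
      rcases Nat.eq_zero_or_pos i.val with h3 | h3
      · have e1 : i = ⟨0, by omega⟩ := Fin.ext h3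
        have e2 : j = ⟨1, by omega⟩ := Fin.ext (by
          change j.val = 1
          omega)
        rw [e1, e2]
      · have e1 : i = ⟨1, by omega⟩ := Fin.ext (by
          change i.val = 1
          omega)
        have e2 : j = ⟨0, by omega⟩ := Fin.ext (by
          change j.val = 0
          omega)
        rw [e1, e2, Sym2.eq_swap]
    intro a ha b hb c hc d hd hab hcd
    obtain ⟨i, -, rfl⟩ := Finset.mem_map.1 ha
    obtain ⟨j, -, rfl⟩ := Finset.mem_map.1 hb
    obtain ⟨l, -, rfl⟩ := Finset.mem_map.1 hc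
    obtain ⟨m, -, rfl⟩ := Finset.mem_map.1 hd
    rw [key i j hab, key l m hcd]
  · rintro ⟨T, hT, hS⟩
    -- choose the possible edge
    obtain ⟨a, b, ha, hb, hab, he⟩ : ∃ a b, a ∈ T ∧ b ∈ T ∧ a ≠ b ∧
        ∀ c ∈ T, ∀ d ∈ T, G.Adj c d → s(c, d) = s(a, b) := by
      by_cases h : ∃ a ∈ T, ∃ b ∈ T, G.Adj a b
      · obtain ⟨a, ha, b, hb, hab⟩ := h
        exact ⟨a, b, ha, hb, hab.ne, fun c hc d hd hcd => hS c hc d hd a ha b hb hcd hab⟩
      · obtain ⟨a, ha, b, hb, hab⟩ := Finset.one_lt_card.1 (by omega : 1 < T.card)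
        exact ⟨a, b, ha, hb, hab, fun c hc d hd hcd => absurd ⟨c, hc, d, hd, hcd⟩ h⟩
    let g0 : Fin k ≃ T := (Fintype.equivFinOfCardEq (by rw [Fintype.card_coe, hT])).symm
    let g1 : Fin k ≃ T := (Equiv.swap ⟨0, by omega⟩ (g0.symm ⟨a, ha⟩)).trans g0
    let g : Fin k ≃ T := (Equiv.swap ⟨1, by omega⟩ (g1.symm ⟨b, hb⟩)).trans g1
    have h10 : g1 ⟨0, by omega⟩ = ⟨a, ha⟩ := by
      simp [g1]
    have hb1 : g1.symm ⟨b, hb⟩ ≠ ⟨0, by omega⟩ := by
      intro h
      rw [Equiv.symm_apply_eq, h10] at h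
      exact hab (congrArg Subtype.val h).symm
    have hg0 : g ⟨0, by omega⟩ = ⟨a, ha⟩ := by
      have h2 : (Equiv.swap (⟨1, by omega⟩ : Fin k) (g1.symm ⟨b, hb⟩)) ⟨0, by omega⟩ =
          ⟨0, by omega⟩ := by
        apply Equiv.swap_apply_of_ne_of_ne
        · intro h
          exact absurd (congrArg Fin.val h) (by norm_num)
        · exact fun h => hb1 h.symm
      change g1 ((Equiv.swap (⟨1, by omega⟩ : Fin k) (g1.symm ⟨b, hb⟩)) ⟨0, by omega⟩) = _
      rw [h2, h10]
    have hg1 : g ⟨1, by omega⟩ = ⟨b, hb⟩ := by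
      change g1 ((Equiv.swap (⟨1, by omega⟩ : Fin k) (g1.symm ⟨b, hb⟩)) ⟨1, by omega⟩) = _
      rw [Equiv.swap_apply_left, Equiv.apply_symm_apply]
    refine ⟨⟨fun i => (g i).1, fun i j h => g.injective (Subtype.ext h)⟩, ?_⟩
    intro i j hij hne
    rw [SimpleGraph.compl_adj]
    refine ⟨fun h => hij (g.injective (Subtype.ext h)), fun h => hne ?_⟩
    have h1 := he _ (g i).2 _ (g j).2 h
    rw [Sym2.eq_iff] at h1
    rcases h1 with ⟨h2, h3⟩ | ⟨h2, h3⟩
    · have e1 : i = ⟨0, by omega⟩ := g.injective (Subtype.ext (by rw [hg0]; exact h2))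
      have e2 : j = ⟨1, by omega⟩ := g.injective (Subtype.ext (by rw [hg1]; exact h3))
      rw [e1, e2]
      rfl
    · have e1 : i = ⟨1, by omega⟩ := g.injective (Subtype.ext (by rw [hg1]; exact h2))
      have e2 : j = ⟨0, by omega⟩ := g.injective (Subtype.ext (by rw [hg0]; exact h3))
      rw [e1, e2]
      rfl

end basic

/-! ### Ramsey numbers of hereditary properties -/

/-- Every triangle-free graph with `n` vertices has a set of `k` vertices with the property. -/
def Big (P : ∀ V : Type, SimpleGraph V → Finset V → Prop) (k n : ℕ) : Prop :=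
  ∀ (V : Type) [Fintype V], Fintype.card V = n → ∀ G : SimpleGraph V, TF G →
    ∃ T : Finset V, T.card = k ∧ P V G T

/-- The properties used. -/
structure Her (P : ∀ V : Type, SimpleGraph V → Finset V → Prop) : Prop where
  map : ∀ (V V' : Type) (e : V ↪ V') (G : SimpleGraph V') (T : Finset V),
    P V (G.comap e) T → P V' G (T.map e)
  sub : ∀ (V : Type) (G : SimpleGraph V) (T T' : Finset V), T' ⊆ T → P V G T → P V G T'
  ind : ∀ (V : Type) (G : SimpleGraph V) (T : Finset V), Indep G T → P V G T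

theorem her_indep : Her fun _ G T => Indep G T where
  map := by
    intro V V' e G T h a ha b hb hab
    obtain ⟨x, hx, rfl⟩ := Finset.mem_map.1 ha
    obtain ⟨y, hy, rfl⟩ := Finset.mem_map.1 hb
    exact h x hx y hy hab
  sub := fun V G T T' hT h a ha b hb => h a (hT ha) b (hT hb)
  ind := fun V G T h => h

theorem her_sparse : Her fun _ G T => Sparse G T where
  map := by
    intro V V' e G T h a ha b hb c hc d hd hab hcd
    obtain ⟨x, hx, rfl⟩ := Finset.mem_map.1 ha
    obtain ⟨y, hy, rfl⟩ := Finset.mem_map.1 hb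
    obtain ⟨z, hz, rfl⟩ := Finset.mem_map.1 hc
    obtain ⟨w, hw, rfl⟩ := Finset.mem_map.1 hd
    have h1 := congrArg (Sym2.map e) (h x hx y hy z hz w hw hab hcd)
    simpa using h1
  sub := fun V G T T' hT h a ha b hb c hc d hd => h a (hT ha) b (hT hb) c (hT hc) d (hT hd)
  ind := fun V G T h => h.sparse

section big

variable {P : ∀ V : Type, SimpleGraph V → Finset V → Prop}

theorem tf_comap {V V' : Type} (e : V ↪ V') {G : SimpleGraph V'} (h : TF G) :
    TF (G.comap e) := fun a b c hab hbc hac => h (e a) (e b) (e c) hab hbc hac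

theorem big_of_fin (hP : Her P) {k n : ℕ} (h : ∀ G : SimpleGraph (Fin n), TF G →
    ∃ T : Finset (Fin n), T.card = k ∧ P _ G T) {n' : ℕ} (hn : n ≤ n') : Big P k n' := by
  intro V _ hV G hG
  have h1 : Fintype.card (Fin n) ≤ Fintype.card V := by
    rw [Fintype.card_fin, hV]
    exact hn
  obtain ⟨e⟩ := Function.Embedding.nonempty_of_card_le h1
  obtain ⟨T, hT, hPT⟩ := h (G.comap e) (tf_comap e hG)
  exact ⟨T.map e, by rw [Finset.card_map, hT], hP.map _ _ e G T hPT⟩

theorem Big.mono (hP : Her P) {k n n' : ℕ} (h : Big P k n) (hn : n ≤ n') : Big P k n' :=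
  big_of_fin hP (fun G hG => h (Fin n) (Fintype.card_fin n) G hG) hn

/-- A version of Ramsey's theorem. -/
theorem ramsey {V : Type*} (G : SimpleGraph V) : ∀ (m a b : ℕ), a + b = m →
    ∀ S : Finset V, 2 ^ m ≤ S.card →
      (∃ A ⊆ S, A.card = a ∧ ∀ x ∈ A, ∀ y ∈ A, x ≠ y → G.Adj x y) ∨
      ∃ B ⊆ S, B.card = b ∧ ∀ x ∈ B, ∀ y ∈ B, ¬ G.Adj x y := by
  classical
  intro m
  induction m with
  | zero =>
    intro a b hab S _
    left
    refine ⟨∅, Finset.empty_subset _, ?_, by simp⟩
    rw [Finset.card_empty]; omega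
  | succ m ih =>
    intro a b hab S hS
    rcases Nat.eq_zero_or_pos a with ha | ha
    · left
      exact ⟨∅, Finset.empty_subset _, by rw [Finset.card_empty, ha], by simp⟩
    rcases Nat.eq_zero_or_pos b with hb | hb
    · right
      exact ⟨∅, Finset.empty_subset _, by rw [Finset.card_empty, hb], by simp⟩
    have hSne : 0 < S.card := lt_of_lt_of_le (by positivity) hS
    obtain ⟨v, hv⟩ := Finset.card_pos.mp hSne
    have h1 : ((S.erase v).filter fun w => G.Adj v w).card +
        ((S.erase v).filter fun w => ¬ G.Adj v w).card = S.card - 1 := by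
      rw [Finset.card_filter_add_card_filter_not, Finset.card_erase_of_mem hv]
    have h2 : 2 ^ m ≤ ((S.erase v).filter fun w => G.Adj v w).card ∨
        2 ^ m ≤ ((S.erase v).filter fun w => ¬ G.Adj v w).card := by
      rw [pow_succ] at hS
      omega
    rcases h2 with h2 | h2
    · rcases ih (a - 1) b (by omega) _ h2 with ⟨A, hA, hAc, hA2⟩ | ⟨B, hB, hBc, hB2⟩
      · left
        have hvA : v ∉ A := fun h => by
          have := hA h
          simp at this
        refine ⟨insert v A, ?_, ?_, ?_⟩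
        · intro x hx
          rcases Finset.mem_insert.mp hx with rfl | hx
          · exact hv
          · exact Finset.mem_of_mem_erase (Finset.mem_filter.mp (hA hx)).1
        · rw [Finset.card_insert_of_notMem hvA, hAc]; omega
        · intro x hx y hy hxy
          rcases Finset.mem_insert.mp hx with rfl | hx1 <;>
            rcases Finset.mem_insert.mp hy with rfl | hy1
          · exact absurd rfl hxy
          · exact (Finset.mem_filter.mp (hA hy1)).2
          · exact (Finset.mem_filter.mp (hA hx1)).2.symm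
          · exact hA2 x hx1 y hy1 hxy
      · right
        exact ⟨B, fun x hx => Finset.mem_of_mem_erase (Finset.mem_filter.mp (hB hx)).1, hBc, hB2⟩
    · rcases ih a (b - 1) (by omega) _ h2 with ⟨A, hA, hAc, hA2⟩ | ⟨B, hB, hBc, hB2⟩
      · left
        exact ⟨A, fun x hx => Finset.mem_of_mem_erase (Finset.mem_filter.mp (hA hx)).1, hAc, hA2⟩
      · right
        have hvB : v ∉ B := fun h => by
          have := hB h
          simp at this
        refine ⟨insert v B, ?_, ?_, ?_⟩
        · intro x hx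
          rcases Finset.mem_insert.mp hx with rfl | hx
          · exact hv
          · exact Finset.mem_of_mem_erase (Finset.mem_filter.mp (hB hx)).1
        · rw [Finset.card_insert_of_notMem hvB, hBc]; omega
        · intro x hx y hy
          rcases Finset.mem_insert.mp hx with rfl | hx1 <;>
            rcases Finset.mem_insert.mp hy with rfl | hy1
          · exact fun h => h.ne rfl
          · exact (Finset.mem_filter.mp (hB hy1)).2
          · exact fun h => (Finset.mem_filter.mp (hB hx1)).2 h.symm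
          · exact hB2 x hx1 y hy1

theorem exists_big (hP : Her P) (k : ℕ) : ∃ n, Big P k n := by
  classical
  refine ⟨2 ^ (3 + k), fun V _ hV G hG => ?_⟩
  rcases ramsey G (3 + k) 3 k rfl Finset.univ (by rw [Finset.card_univ, hV]) with
    ⟨A, -, hA, hA2⟩ | ⟨B, -, hB, hB2⟩
  · exfalso
    obtain ⟨a, b, c, hab, hac, hbc, rfl⟩ := Finset.card_eq_three.1 hA
    exact hG a b c (hA2 a (by simp) b (by simp) hab) (hA2 b (by simp) c (by simp) hbc)
      (hA2 a (by simp) c (by simp) hac)
  · exact ⟨B, hB, hP.ind V G B hB2⟩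

/-- The Ramsey number of a property. -/
noncomputable def rn (P : ∀ V : Type, SimpleGraph V → Finset V → Prop) (k : ℕ) : ℕ :=
  sInf {n | Big P k n}

theorem big_rn (hP : Her P) (k : ℕ) : Big P k (rn P k) := Nat.sInf_mem (exists_big hP k)

theorem lt_rn_iff (hP : Her P) {k n : ℕ} : n < rn P k ↔ ¬ Big P k n := by
  constructor
  · exact fun h => Nat.notMem_of_lt_sInf h
  · intro h
    by_contra h1
    push Not at h1
    exact h ((big_rn hP k).mono hP h1)

/-- A triangle-free graph without large sets. -/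
theorem lt_rn_of (hP : Her P) {k : ℕ} {V : Type} [Fintype V] (G : SimpleGraph V) (hG : TF G)
    (h : ∀ T : Finset V, P V G T → T.card < k) : Fintype.card V < rn P k := by
  rw [lt_rn_iff hP]
  intro hB
  obtain ⟨T, hT, hPT⟩ := hB V rfl G hG
  exact absurd (h T hPT) (by omega)

/-- Critical graphs. -/
theorem exists_crit (hP : Her P) {k : ℕ} (hk : 0 < k) : ∃ (V : Type) (_ : Fintype V)
    (G : SimpleGraph V), Fintype.card V + 1 = rn P k ∧ TF G ∧
      ∀ T : Finset V, P V G T → T.card < k := by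
  have h0 : ¬ Big P k 0 := by
    intro h
    obtain ⟨T, hT, -⟩ := h (Fin 0) (Fintype.card_fin 0) ⊥ (fun a => a.elim0)
    have h1 := Finset.card_le_univ T
    rw [Fintype.card_fin] at h1
    omega
  have h1 : 0 < rn P k := (lt_rn_iff hP).2 h0
  have h2 : ¬ Big P k (rn P k - 1) := (lt_rn_iff hP).1 (by omega)
  unfold Big at h2
  push Not at h2
  obtain ⟨V, hF, hV, G, hG, hT⟩ := h2
  refine ⟨V, hF, G, by omega, hG, fun T hPT => ?_⟩
  by_contra h3
  push Not at h3
  obtain ⟨T', hT', hc⟩ := Finset.exists_subset_card_eq h3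
  exact hT T' hc (hP.sub V G T T' hT' hPT)

end big

theorem RJ_eq {k : ℕ} (hk : 2 ≤ k) : RJ k = rn (fun _ G T => Sparse G T) k := by
  unfold RJ rn
  congr 1
  ext n
  simp only [Set.mem_ofPred_eq]
  constructor
  · intro h
    refine big_of_fin her_sparse (fun G hG => ?_) le_rfl
    rcases h G with h1 | h1
    · exact absurd ((tf_iff G).2 hG) h1
    · exact (sparse_iff G hk).1 h1
  · intro h G
    by_cases hG : G.CliqueFree 3
    · exact Or.inr ((sparse_iff G hk).2 (h (Fin n) (Fintype.card_fin n) G ((tf_iff G).1 hG)))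
    · exact Or.inl hG

theorem RK_eq (k : ℕ) : RK k = rn (fun _ G T => Indep G T) k := by
  unfold RK rn
  congr 1
  ext n
  simp only [Set.mem_ofPred_eq]
  constructor
  · intro h
    refine big_of_fin her_indep (fun G hG => ?_) le_rfl
    rcases h G with h1 | h1
    · exact absurd ((tf_iff G).2 hG) h1
    · exact (indep_iff G k).1 h1
  · intro h G
    by_cases hG : G.CliqueFree 3
    · exact Or.inr ((indep_iff G k).2 (h (Fin n) (Fintype.card_fin n) G ((tf_iff G).1 hG)))
    · exact Or.inl hG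

/-- A sparse set contains an independent set with one element less. -/
theorem indep_of_sparse {V : Type} {G : SimpleGraph V} {T : Finset V} (h : Sparse G T) {m : ℕ}
    (hm : m + 1 ≤ T.card) : ∃ T' : Finset V, T'.card = m ∧ Indep G T' := by
  classical
  by_cases h1 : ∃ a ∈ T, ∃ b ∈ T, G.Adj a b
  · obtain ⟨a, ha, b, hb, hab⟩ := h1
    have h2 : m ≤ (T.erase a).card := by
      rw [Finset.card_erase_of_mem ha]
      omega
    obtain ⟨T', hT', hc⟩ := Finset.exists_subset_card_eq h2
    refine ⟨T', hc, fun c hc' d hd hcd => ?_⟩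
    have h3 := h c (Finset.mem_of_mem_erase (hT' hc')) d (Finset.mem_of_mem_erase (hT' hd))
      a ha b hb hcd hab
    rw [Sym2.eq_iff] at h3
    rcases h3 with ⟨h4, -⟩ | ⟨-, h4⟩
    · exact Finset.ne_of_mem_erase (hT' hc') h4
    · exact Finset.ne_of_mem_erase (hT' hd) h4
  · obtain ⟨T', hT', hc⟩ := Finset.exists_subset_card_eq (by omega : m ≤ T.card)
    exact ⟨T', hc, fun c hc' d hd hcd => h1 ⟨c, hT' hc', d, hT' hd, hcd⟩⟩

/-- A critical graph contains an independent set with `k - 2` elements. -/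
theorem crit_indep {k : ℕ} (hk : 2 ≤ k) {V : Type} [Fintype V] (G : SimpleGraph V)
    (hV : Fintype.card V + 1 = rn (fun _ G T => Sparse G T) k) (hG : TF G) :
    ∃ T : Finset V, T.card + 2 = k ∧ Indep G T := by
  classical
  let G' : SimpleGraph (Option V) := G.map Function.Embedding.some
  have hG' : TF G' := by
    intro a b c hab hbc hac
    obtain ⟨x, y, hxy, rfl, rfl⟩ := (SimpleGraph.map_adj _ _ _ _).1 hab
    obtain ⟨y', z, hyz, hy, rfl⟩ := (SimpleGraph.map_adj _ _ _ _).1 hbc
    obtain ⟨x', z', hxz, hx, hz⟩ := (SimpleGraph.map_adj _ _ _ _).1 hac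
    obtain rfl : y' = y := Option.some_injective _ hy
    obtain rfl : x' = x := Option.some_injective _ hx
    obtain rfl : z' = z := Option.some_injective _ hz
    exact hG x' y' z' hxy hyz hxz
  obtain ⟨T, hT, hS⟩ := big_rn her_sparse k (Option V) (by rw [Fintype.card_option, hV]) G' hG'
  have h1 : Sparse G (Finset.eraseNone T) := by
    intro a ha b hb c hc d hd hab hcd
    rw [Finset.mem_eraseNone] at ha hb hc hd
    have h2 := hS _ ha _ hb _ hc _ hd ((SimpleGraph.map_adj _ _ _ _).2 ⟨a, b, hab, rfl, rfl⟩)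
      ((SimpleGraph.map_adj _ _ _ _).2 ⟨c, d, hcd, rfl, rfl⟩)
    have h3 : Function.Injective (Sym2.map (some : V → Option V)) :=
      Sym2.map.injective (Option.some_injective _)
    exact h3 (by simpa using h2)
  have h2 : (Finset.eraseNone T).card + 1 ≥ T.card := by
    have h3 : T ⊆ insert none ((Finset.eraseNone T).map Function.Embedding.some) := by
      intro x hx
      cases x with
      | none => exact Finset.mem_insert_self _ _
      | some y =>
        exact Finset.mem_insert_of_mem (Finset.mem_map.2 ⟨y, Finset.mem_eraseNone.2 hx, rfl⟩)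
    have h4 := (Finset.card_le_card h3).trans (Finset.card_insert_le _ _)
    rw [Finset.card_map] at h4
    exact h4
  obtain ⟨T', hT', hI⟩ := indep_of_sparse h1 (m := k - 2) (by omega)
  exact ⟨T', by omega, hI⟩

theorem exists_fin {V : Type} {G : SimpleGraph V} {T : Finset V} (h : Indep G T) {m : ℕ}
    (hm : m ≤ T.card) : ∃ v : Fin m → V, Function.Injective v ∧ ∀ i j, ¬ G.Adj (v i) (v j) := by
  have h1 : Fintype.card (Fin m) ≤ Fintype.card T := by
    rw [Fintype.card_fin, Fintype.card_coe]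
    exact hm
  obtain ⟨f⟩ := Function.Embedding.nonempty_of_card_le h1
  exact ⟨fun i => (f i).1, fun i j h => f.injective (Subtype.ext h),
    fun i j => h _ (f i).2 _ (f j).2⟩

/-- The common part: gluing along an independent set with `m` elements. -/
theorem glued {s t m : ℕ} (hs : 2 ≤ s) (ht : 2 ≤ t) (hmt : m + 2 ≤ t)
    (hm : ∀ (V : Type) [Fintype V] (G : SimpleGraph V),
      Fintype.card V + 1 = rn (fun _ G T => Sparse G T) s → TF G →
      ∃ T : Finset V, m ≤ T.card ∧ Indep G T) : RJ s + RJ t + m ≤ RJ (s + t - 1) + 1 := by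
  classical
  rw [RJ_eq hs, RJ_eq ht, RJ_eq (by omega : 2 ≤ s + t - 1)]
  obtain ⟨V1, _, H1, c1, tf1, sp1⟩ := exists_crit her_sparse (by omega : 0 < s)
  obtain ⟨V2, _, H2, c2, tf2, sp2⟩ := exists_crit her_sparse (by omega : 0 < t)
  obtain ⟨T1, hT1, hI1⟩ := hm V1 H1 c1 tf1
  obtain ⟨T2, hT2, hI2⟩ := crit_indep ht H2 c2 tf2
  obtain ⟨v, hv, hvi⟩ := exists_fin hI1 hT1
  obtain ⟨g, hg, hgi⟩ := exists_fin hI2 (by omega : m ≤ T2.card)
  obtain ⟨R, hR, hR2⟩ := star (m := m) (a := t - 1) tf2
    (fun T hT => by have := sp2 T hT; omega) (by omega) g hg hgi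
  have h1 := lt_rn_of her_sparse (k := s + t - 1) (glue H1 H2 v R)
    (glue_tf tf1 tf2 hvi hv hR) (fun T hT => by
      have := glue_sparse (a1 := s - 1) (a2 := t - 1)
        (fun T hT => by have := sp1 T hT; omega) hvi hv hR2 T hT
      omega)
  rw [Fintype.card_sum, Fintype.card_sum, Fintype.card_fin] at h1
  omega

/-- `R(3, J_s) + R(3, J_t) + s ≤ R(3, J_(s+t-1)) + 3` for `2 ≤ s ≤ t`. -/
theorem add_le {s t : ℕ} (hs : 2 ≤ s) (hst : s ≤ t) :
    RJ s + RJ t + s ≤ RJ (s + t - 1) + 3 := by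
  have h1 := glued (m := s - 2) hs (hs.trans hst) (by omega) (fun V _ G hV hG => by
    obtain ⟨T, hT, hI⟩ := crit_indep hs G hV hG
    exact ⟨T, by omega, hI⟩)
  omega

/-- One more if `R(3, K_(s-1)) < R(3, J_s)` and `s < t`. -/
theorem add_le' {s t : ℕ} (hs : 2 ≤ s) (hst : s < t) (h : RK (s - 1) < RJ s) :
    RJ s + RJ t + s ≤ RJ (s + t - 1) + 2 := by
  have h1 := glued (m := s - 1) hs (by omega : 2 ≤ t) (by omega) (fun V _ G hV hG => by
    rw [RJ_eq hs, RK_eq, ← hV] at h
    obtain ⟨T, hT, hI⟩ := (big_rn her_indep (s - 1)).mono her_indep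
      (by omega : rn (fun _ G T => Indep G T) (s - 1) ≤ Fintype.card V) V rfl G hG
    exact ⟨T, by omega, hI⟩)
  omega

theorem one_lt_RJ_two : RK 1 < RJ 2 := by
  rw [RJ_eq le_rfl, RK_eq]
  have h1 : rn (fun _ G T => Indep G T) 1 ≤ 1 := by
    apply Nat.sInf_le
    intro V _ hV G _
    obtain ⟨x, hx⟩ := Fintype.card_eq_one_iff.1 hV
    refine ⟨{x}, Finset.card_singleton x, fun a ha b hb => ?_⟩
    rw [Finset.mem_singleton] at ha hb
    subst ha
    subst hb
    exact G.loopless.irrefl _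
  have h2 : 1 < rn (fun _ G T => Sparse G T) 2 := by
    rw [lt_rn_iff her_sparse]
    intro h
    obtain ⟨T, hT, -⟩ := h (Fin 1) (Fintype.card_fin 1) ⊥ (fun a b c hab => hab.elim)
    have h1 := Finset.card_le_univ T
    rw [Fintype.card_fin] at h1
    omega
  omega

/-- `R(3, J_(k+1)) ≥ R(3, J_k) + 2` for `k ≥ 3`. -/
theorem add_two_le {k : ℕ} (hk : 3 ≤ k) : RJ k + 2 ≤ RJ (k + 1) := by
  have h1 := add_le' (s := 2) (t := k) le_rfl (by omega) one_lt_RJ_two
  have h2 : 1 < rn (fun _ G T => Sparse G T) 2 := by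
    rw [lt_rn_iff her_sparse]
    intro h
    obtain ⟨T, hT, -⟩ := h (Fin 1) (Fintype.card_fin 1) ⊥ (fun a b c hab => hab.elim)
    have h1 := Finset.card_le_univ T
    rw [Fintype.card_fin] at h1
    omega
  rw [← RJ_eq le_rfl] at h2
  have h3 : 2 + k - 1 = k + 1 := by omega
  rw [h3] at h1
  omega

end Pool.Agent.RJK
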