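import Mathlib

/-!
# Sets spanning at most one edge in triangle-free graphs: gluing two graphs (helper94)
-/

set_option autoImplicit false

namespace Pool.Agent.RJK

/-- No triangles. -/
def TF {V : Type*} (G : SimpleGraph V) : Prop :=
  ∀ a b c, G.Adj a b → G.Adj b c → G.Adj a c → False

/-- At most one edge inside `T`. -/
def Sparse {V : Type*} (G : SimpleGraph V) (T : Finset V) : Prop :=
  ∀ a ∈ T, ∀ b ∈ T, ∀ c ∈ T, ∀ d ∈ T, G.Adj a b → G.Adj c d → s(a, b) = s(c, d)

/-- No edge inside `T`. -/
def Indep {V : Type*} (G : SimpleGraph V) (T : Finset V) : Prop :=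
  ∀ a ∈ T, ∀ b ∈ T, ¬ G.Adj a b

theorem Indep.sparse {V : Type*} {G : SimpleGraph V} {T : Finset V} (h : Indep G T) :
    Sparse G T := fun a ha b hb _ _ _ _ hab _ => absurd hab (h a ha b hb)

section star

variable {V : Type*} [DecidableEq V] {m : ℕ}

/-- The incidences between the pairs of new edges and a set. -/
structure Inc (H : SimpleGraph V) (R : Fin m → Bool → V → Prop) (T : Finset V)
    (C : Finset (Fin m)) : Prop where
  sp : Sparse H T
  un : ∀ i ∈ C, ∀ b, ∀ x ∈ T, R i b x → ∀ i' ∈ C, ∀ b', ∀ x' ∈ T, R i' b' x' →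
    i = i' ∧ b = b' ∧ x = x'
  ind : ∀ i ∈ C, ∀ b, ∀ x ∈ T, R i b x → Indep H T

/-- adding independent vertices with at most one edge to an independent set -/
theorem ext {H : SimpleGraph V} {a : ℕ} (hH : ∀ T : Finset V, Sparse H T → T.card ≤ a)
    (g : Fin m → V) (hg : Function.Injective g) (hgi : ∀ i j, ¬ H.Adj (g i) (g j))
    (T : Finset V) (C : Finset (Fin m)) (hT : Sparse H T) (hd : ∀ i ∈ C, g i ∉ T)
    (hA : ∀ i ∈ C, ∀ x ∈ T, H.Adj (g i) x → Indep H T)
    (hB : ∀ i ∈ C, ∀ x ∈ T, H.Adj (g i) x → ∀ i' ∈ C, ∀ x' ∈ T, H.Adj (g i') x' →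
      i = i' ∧ x = x') : T.card + C.card ≤ a := by
  have h1 : (T ∪ C.image g).card = T.card + C.card := by
    rw [Finset.card_union_of_disjoint, Finset.card_image_of_injective _ hg]
    rw [Finset.disjoint_left]
    intro x hx hx'
    obtain ⟨i, hi, rfl⟩ := Finset.mem_image.1 hx'
    exact hd i hi hx
  rw [← h1]
  apply hH
  -- every edge of the union
  have key : ∀ p ∈ T ∪ C.image g, ∀ q ∈ T ∪ C.image g, H.Adj p q →
      (p ∈ T ∧ q ∈ T) ∨ ∃ i ∈ C, ∃ x ∈ T, H.Adj (g i) x ∧ s(p, q) = s(g i, x) := by
    intro p hp q hq hpq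
    rcases Finset.mem_union.1 hp with hp | hp <;> rcases Finset.mem_union.1 hq with hq | hq
    · exact Or.inl ⟨hp, hq⟩
    · obtain ⟨i, hi, rfl⟩ := Finset.mem_image.1 hq
      exact Or.inr ⟨i, hi, p, hp, hpq.symm, Sym2.eq_swap⟩
    · obtain ⟨i, hi, rfl⟩ := Finset.mem_image.1 hp
      exact Or.inr ⟨i, hi, q, hq, hpq, rfl⟩
    · obtain ⟨i, hi, rfl⟩ := Finset.mem_image.1 hp
      obtain ⟨j, hj, rfl⟩ := Finset.mem_image.1 hq
      exact absurd hpq (hgi i j)
  intro p hp q hq r hr t ht hpq hrt
  rcases key p hp q hq hpq with ⟨h2, h3⟩ | ⟨i, hi, x, hx, hix, he⟩ <;>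
    rcases key r hr t ht hrt with ⟨h4, h5⟩ | ⟨i', hi', x', hx', hix', he'⟩
  · exact hT p h2 q h3 r h4 t h5 hpq hrt
  · exact absurd hpq (hA i' hi' x' hx' hix' p h2 q h3)
  · exact absurd hrt (hA i hi x hx hix r h4 t h5)
  · obtain ⟨rfl, rfl⟩ := hB i hi x hx hix i' hi' x' hx' hix'
    rw [he, he']

/-- The pairs of new edges for a graph `H`: `R i b` are independent sets and a set `T` with few
incidences with the pairs `i ∈ C` has at most `a - |C|` elements. -/
def Star (H : SimpleGraph V) (a m : ℕ) : Prop :=
  ∃ R : Fin m → Bool → V → Prop, (∀ i b x y, R i b x → R i b y → ¬ H.Adj x y) ∧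
    ∀ (T : Finset V) (C : Finset (Fin m)), Inc H R T C → T.card + C.card ≤ a

theorem nbr_indep {H : SimpleGraph V} (hTF : TF H) (v x y : V) (hx : H.Adj v x)
    (hy : H.Adj v y) : ¬ H.Adj x y := fun h => hTF v x y hx h hy

/-- case of matched pairs -/
theorem star_pairs {H : SimpleGraph V} {a : ℕ} (hTF : TF H)
    (hH : ∀ T : Finset V, Sparse H T → T.card ≤ a) (g w : Fin m → V)
    (hg : Function.Injective g) (hw : Function.Injective w) (hgi : ∀ i j, ¬ H.Adj (g i) (g j))
    (hwi : ∀ i j, ¬ H.Adj (w i) (w j)) (hgw : ∀ i, H.Adj (g i) (w i)) : Star H a m := by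
  refine ⟨fun i b x => if b then H.Adj (w i) x else H.Adj (g i) x, ?_, ?_⟩
  · intro i b x y hx hy
    cases b
    · exact nbr_indep hTF (g i) x y (by simpa using hx) (by simpa using hy)
    · exact nbr_indep hTF (w i) x y (by simpa using hx) (by simpa using hy)
  · intro T C hI
    by_cases hQ : ∃ i ∈ C, ∃ x ∈ T, H.Adj (g i) x
    · obtain ⟨i, hi, x, hx, hix⟩ := hQ
      apply ext hH g hg hgi T C hI.sp
      · intro i' hi' hm
        have h1 := hI.un i hi false x hx (by simpa using hix) i' hi' true (g i') hm
          (by simpa using (hgw i').symm)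
        exact absurd h1.2.1 (by decide)
      · intro i' hi' x' hx' h
        exact hI.ind i' hi' false x' hx' (by simpa using h)
      · intro i' hi' x' hx' h i'' hi'' x'' hx'' h'
        have h1 := hI.un i' hi' false x' hx' (by simpa using h) i'' hi'' false x'' hx''
          (by simpa using h')
        exact ⟨h1.1, h1.2.2⟩
    · apply ext hH w hw hwi T C hI.sp
      · intro i' hi' hm
        exact hQ ⟨i', hi', w i', hm, hgw i'⟩
      · intro i' hi' x' hx' h
        exact hI.ind i' hi' true x' hx' (by simpa using h)
      · intro i' hi' x' hx' h i'' hi'' x'' hx'' h'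
        have h1 := hI.un i' hi' true x' hx' (by simpa using h) i'' hi'' true x'' hx''
          (by simpa using h')
        exact ⟨h1.1, h1.2.2⟩

/-- case of a large independent set which meets all others in two elements -/
theorem star_meet {H : SimpleGraph V} {a : ℕ} (hTF : TF H)
    (hH : ∀ T : Finset V, Sparse H T → T.card ≤ a) (hm : m + 1 ≤ a) (I : Finset V)
    (hI : Indep H I) (hIa : I.card = a)
    (hJ : ∀ J : Finset V, Indep H J → J.card = a → 2 ≤ (I ∩ J).card) : Star H a m := by
  obtain ⟨g, hg, hgI⟩ : ∃ g : Fin m → V, Function.Injective g ∧ ∀ i, g i ∈ I := by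
    have h1 : Fintype.card (Fin m) ≤ Fintype.card I := by
      rw [Fintype.card_fin, Fintype.card_coe]
      omega
    obtain ⟨f⟩ := Function.Embedding.nonempty_of_card_le h1
    exact ⟨fun i => (f i).1, fun i j h => f.injective (Subtype.ext h), fun i => (f i).2⟩
  refine ⟨fun i b x => if b then x ∈ I else H.Adj (g i) x, ?_, ?_⟩
  · intro i b x y hx hy
    cases b
    · exact nbr_indep hTF (g i) x y (by simpa using hx) (by simpa using hy)
    · exact hI x (by simpa using hx) y (by simpa using hy)
  · intro T C hInc
    by_cases hc : ∃ i ∈ C, ∃ x ∈ T, x ∈ I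
    · obtain ⟨i, hi, x, hx, hxI⟩ := hc
      have h1 : C = {i} := by
        ext i'
        rw [Finset.mem_singleton]
        constructor
        · intro hi'
          exact (hInc.un i hi true x hx (by simpa using hxI) i' hi' true x hx
            (by simpa using hxI)).1.symm
        · rintro rfl
          exact hi
      have h2 : I ∩ T ⊆ {x} := by
        intro x' hx'
        rw [Finset.mem_inter] at hx'
        rw [Finset.mem_singleton]
        exact (hInc.un i hi true x hx (by simpa using hxI) i hi true x' hx'.2
          (by simpa using hx'.1)).2.2.symm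
      have h3 := hInc.ind i hi true x hx (by simpa using hxI)
      have h4 := hH T h3.sparse
      have h5 : T.card ≠ a := by
        intro h5
        have h6 := hJ T h3 h5
        have h7 := Finset.card_le_card h2
        rw [Finset.card_singleton] at h7
        omega
      rw [h1, Finset.card_singleton]
      omega
    · apply ext hH g hg (fun i j => hI _ (hgI i) _ (hgI j)) T C hInc.sp
      · intro i hi hm'
        exact hc ⟨i, hi, g i, hm', hgI i⟩
      · intro i' hi' x' hx' h
        exact hInc.ind i' hi' false x' hx' (by simpa using h)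
      · intro i' hi' x' hx' h i'' hi'' x'' hx'' h'
        have h1 := hInc.un i' hi' false x' hx' (by simpa using h) i'' hi'' false x'' hx''
          (by simpa using h')
        exact ⟨h1.1, h1.2.2⟩

/-- case without independent sets of the maximal size -/
theorem star_small {H : SimpleGraph V} {a : ℕ} (hTF : TF H)
    (hH : ∀ T : Finset V, Sparse H T → T.card ≤ a)
    (ha : ∀ J : Finset V, Indep H J → J.card + 1 ≤ a) (g : Fin m → V)
    (hg : Function.Injective g) (hgi : ∀ i j, ¬ H.Adj (g i) (g j)) : Star H a m := by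
  refine ⟨fun i b x => if b then x = g i else H.Adj (g i) x, ?_, ?_⟩
  · intro i b x y hx hy
    cases b
    · exact nbr_indep hTF (g i) x y (by simpa using hx) (by simpa using hy)
    · have h1 : x = g i := by simpa using hx
      have h2 : y = g i := by simpa using hy
      rw [h1, h2]
      exact hgi i i
  · intro T C hInc
    by_cases hc : ∃ i ∈ C, g i ∈ T
    · obtain ⟨i, hi, hiT⟩ := hc
      have h3 := hInc.ind i hi true (g i) hiT (by simp)
      have h4 : Indep H (T ∪ (C.erase i).image g) := by
        have h5 : ∀ i' ∈ C.erase i, ∀ x ∈ T, ¬ H.Adj (g i') x := by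
          intro i' hi' x hx h
          have h6 := hInc.un i hi true (g i) hiT (by simp) i' (Finset.mem_of_mem_erase hi') false
            x hx (by simpa using h)
          exact absurd h6.2.1 (by decide)
        intro p hp q hq
        rcases Finset.mem_union.1 hp with hp | hp <;> rcases Finset.mem_union.1 hq with hq | hq
        · exact h3 p hp q hq
        · obtain ⟨i', hi', rfl⟩ := Finset.mem_image.1 hq
          exact fun h => h5 i' hi' p hp h.symm
        · obtain ⟨i', hi', rfl⟩ := Finset.mem_image.1 hp
          exact fun h => h5 i' hi' q hq h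
        · obtain ⟨i', hi', rfl⟩ := Finset.mem_image.1 hp
          obtain ⟨j', hj', rfl⟩ := Finset.mem_image.1 hq
          exact hgi i' j'
      have h6 := ha _ h4
      rw [Finset.card_union_of_disjoint, Finset.card_image_of_injective _ hg,
        Finset.card_erase_of_mem hi] at h6
      · have h7 : 0 < C.card := Finset.card_pos.2 ⟨i, hi⟩
        omega
      · rw [Finset.disjoint_left]
        intro x hx hx'
        obtain ⟨i', hi', rfl⟩ := Finset.mem_image.1 hx'
        have h7 := hInc.un i hi true (g i) hiT (by simp) i' (Finset.mem_of_mem_erase hi') true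
          (g i') hx (by simp)
        exact (Finset.ne_of_mem_erase hi') h7.1.symm
    · apply ext hH g hg hgi T C hInc.sp
      · intro i hi hm'
        exact hc ⟨i, hi, hm'⟩
      · intro i' hi' x' hx' h
        exact hInc.ind i' hi' false x' hx' (by simpa using h)
      · intro i' hi' x' hx' h i'' hi'' x'' hx'' h'
        have h1 := hInc.un i' hi' false x' hx' (by simpa using h) i'' hi'' false x'' hx''
          (by simpa using h')
        exact ⟨h1.1, h1.2.2⟩

/-- **The new edges exist.** -/
theorem star [Fintype V] {H : SimpleGraph V} {a : ℕ} (hTF : TF H)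
    (hH : ∀ T : Finset V, Sparse H T → T.card ≤ a) (hm : m + 1 ≤ a) (g : Fin m → V)
    (hg : Function.Injective g) (hgi : ∀ i j, ¬ H.Adj (g i) (g j)) : Star H a m := by
  classical
  by_cases h1 : ∃ I : Finset V, Indep H I ∧ I.card = a
  · obtain ⟨I, hI, hIa⟩ := h1
    by_cases h2 : ∀ J : Finset V, Indep H J → J.card = a → 2 ≤ (I ∩ J).card
    · exact star_meet hTF hH hm I hI hIa h2
    · push Not at h2
      obtain ⟨J, hJ, hJa, hIJ⟩ := h2
      -- Hall
      have hall : ∀ S : Finset {x // x ∈ J \ I}, S.card ≤
          (S.biUnion fun x => (I \ J).filter fun y => H.Adj x.1 y).card := by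
        intro S
        by_contra hlt
        push Not at hlt
        set N := S.biUnion fun x => (I \ J).filter fun y => H.Adj x.1 y with hN
        let S' : Finset V := S.map (Function.Embedding.subtype _)
        have h3 : Indep H ((I \ N) ∪ S') := by
          have h4 : ∀ x ∈ S', x ∈ J ∧ x ∉ I := by
            intro x hx
            obtain ⟨y, hy, rfl⟩ := Finset.mem_map.1 hx
            exact Finset.mem_sdiff.1 y.2
          have h5 : ∀ p ∈ I \ N, ∀ x ∈ S', ¬ H.Adj x p := by
            intro p hp x hx hxp
            obtain ⟨hpI, hpN⟩ := Finset.mem_sdiff.1 hp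
            have hxJ := h4 x hx
            obtain ⟨y, hy, rfl⟩ := Finset.mem_map.1 hx
            by_cases hpJ : p ∈ J
            · exact hJ _ hxJ.1 p hpJ hxp
            · apply hpN
              rw [hN, Finset.mem_biUnion]
              exact ⟨y, hy, Finset.mem_filter.2 ⟨Finset.mem_sdiff.2 ⟨hpI, hpJ⟩, hxp⟩⟩
          intro p hp q hq
          rcases Finset.mem_union.1 hp with hp | hp <;> rcases Finset.mem_union.1 hq with hq | hq
          · exact hI p (Finset.mem_sdiff.1 hp).1 q (Finset.mem_sdiff.1 hq).1
          · exact fun h => h5 p hp q hq h.symm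
          · exact fun h => h5 q hq p hp h
          · exact hJ p (h4 p hp).1 q (h4 q hq).1
        have h6 := hH _ h3.sparse
        rw [Finset.card_union_of_disjoint, Finset.card_map] at h6
        · have hNI : N ⊆ I := by
            intro y hy
            rw [hN, Finset.mem_biUnion] at hy
            obtain ⟨x, -, hx⟩ := hy
            exact (Finset.mem_sdiff.1 (Finset.mem_filter.1 hx).1).1
          rw [Finset.card_sdiff_of_subset hNI] at h6
          have h7 := Finset.card_le_card hNI
          omega
        · rw [Finset.disjoint_left]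
          intro x hx hx'
          obtain ⟨y, hy, rfl⟩ := Finset.mem_map.1 hx'
          exact (Finset.mem_sdiff.1 y.2).2 (Finset.mem_sdiff.1 hx).1
      obtain ⟨f, hf, hfm⟩ := (Finset.all_card_le_biUnion_card_iff_exists_injective _).1 hall
      have hcard : m ≤ (J \ I).card := by
        have h3 := Finset.card_sdiff_add_card_inter J I
        rw [Finset.inter_comm] at h3
        omega
      have h4 : Fintype.card (Fin m) ≤ Fintype.card {x // x ∈ J \ I} := by
        rw [Fintype.card_fin, Fintype.card_coe]
        exact hcard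
      obtain ⟨k⟩ := Function.Embedding.nonempty_of_card_le h4
      have hfk : ∀ i, f (k i) ∈ I ∧ H.Adj (k i).1 (f (k i)) := by
        intro i
        have h5 := Finset.mem_filter.1 (hfm (k i))
        exact ⟨(Finset.mem_sdiff.1 h5.1).1, h5.2⟩
      exact star_pairs hTF hH (fun i => (k i).1) (fun i => f (k i))
        (fun i j h => k.injective (Subtype.ext h)) (fun i j h => k.injective (hf h))
        (fun i j => hJ _ (Finset.mem_sdiff.1 (k i).2).1 _ (Finset.mem_sdiff.1 (k j).2).1)
        (fun i j => hI _ (hfk i).1 _ (hfk j).1) (fun i => (hfk i).2)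
  · apply star_small hTF hH _ g hg hgi
    intro J hJ
    have h2 := hH J hJ.sparse
    have h3 : J.card ≠ a := fun h => h1 ⟨J, hJ, h⟩
    omega

end star

end Pool.Agent.RJK
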